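import Pool.Agent.H.MP_50b7e0_al.Data

/-!
Finite verification of the data.
-/

set_option autoImplicit false
set_option maxRecDepth 100000

namespace Pool.Agent.H.MP50b7e0

/-- Entry `k` of a table with entries of 10 bits. -/
def dig (tab k : ℕ) : ℕ := (tab >>> (10 * k)) % 1024

def fT (n : ℕ) : ℕ := dig tabA (16 * n)
def fAT (n : ℕ) : ℕ := dig tabA (16 * n + 1)
def fAV (n : ℕ) : ℕ := dig tabA (16 * n + 2)
def fXT (n : ℕ) : ℕ := dig tabA (16 * n + 3)
def fXV (n : ℕ) : ℕ := dig tabA (16 * n + 4)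
def fPr (n : ℕ) : ℕ := dig tabA (16 * n + 5)
def fM (n : ℕ) : ℕ := dig tabA (16 * n + 6)
def fK (n : ℕ) : ℕ := dig tabA (16 * n + 7)
def fJ (n : ℕ) : ℕ := dig tabA (16 * n + 8)
def fLx (n : ℕ) : ℕ := dig tabA (16 * n + 9)
def fLb (n : ℕ) : ℕ := dig tabA (16 * n + 10)
def fLa (n : ℕ) : ℕ := dig tabA (16 * n + 11)
def fC (n : ℕ) : ℕ := dig tabA (16 * n + 12)
def fL0 (n : ℕ) : ℕ := dig tabA (16 * n + 13)
def fL1 (n : ℕ) : ℕ := dig tabA (16 * n + 14)

def bT (k : ℕ) : ℕ := dig tabT k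
def bV (k : ℕ) : ℕ := dig tabV k
def aI (k : ℕ) : ℕ := dig tabI k

/-- Ranges of the entries of an arrow, and the previous and the third arrow. -/
def okA (n : ℕ) : Prop :=
  (fT n < 19 ∧ fAT n < 19 ∧ fXT n < 19) ∧ fAV n < 101 ∧
  (fPr n < 261 ∧ fT (fPr n) = fT n ∧ fXT (fPr n) = fAT n ∧ fXV (fPr n) = fAV n) ∧
  (fM n < 261 ∧ fT (fM n) = fXT n ∧ fAT (fM n) = fT n ∧ (fAV (fM n) + fXV n) % 101 = 0)

/-- The fourth arrow. -/
def okY (n : ℕ) : Prop :=
  fJ n < 261 ∧ fT (fJ n) = fAT n ∧ fAT (fJ n) = fXT (fM n) ∧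
  (fAV n + fAV (fJ n)) % 101 = (fXV n + fXV (fM n)) % 101 ∧
  fXT (fJ n) = fAT (fPr n) ∧ (fAV n + fXV (fJ n)) % 101 = fAV (fPr n) % 101

/-- The block replacing the fourth arrow. -/
def okX (n : ℕ) : Prop :=
  (13 ≤ fJ n ∧ fJ n < 266 ∧ fLx n < 5 ∧ fLb n < 5 ∧ fLa n < 5 ∧ fLx n ≠ fLb n) ∧
  (bT (5 * fJ n + fLx n) = fAT n ∧ bT (5 * fJ n + fLb n) = fXT (fM n) ∧
    bT (5 * fJ n + fLa n) = fAT (fPr n)) ∧
  ((fAV n + bV (5 * fJ n + fLb n)) % 101 =
      (bV (5 * fJ n + fLx n) + (fXV n + fXV (fM n))) % 101 ∧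
    (fAV n + bV (5 * fJ n + fLa n)) % 101 = (bV (5 * fJ n + fLx n) + fAV (fPr n)) % 101 ∧
    (fLa n + fLb n) % 5 = (2 * fLx n) % 5)

/-- The clique containing the pair of an arrow. -/
def okC (n : ℕ) : Prop :=
  fC n < 13 ∧ fL0 n < 5 ∧ fL1 n < 5 ∧ bT (5 * fC n + fL0 n) = fT n ∧
  bT (5 * fC n + fL1 n) = fAT n ∧
  (bV (5 * fC n + fL0 n) + fAV n) % 101 = (bV (5 * fC n + fL1 n)) % 101

instance (n : ℕ) : Decidable (okA n) := by unfold okA; infer_instance
instance (n : ℕ) : Decidable (okY n) := by unfold okY; infer_instance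
instance (n : ℕ) : Decidable (okX n) := by unfold okX; infer_instance
instance (n : ℕ) : Decidable (okC n) := by unfold okC; infer_instance

theorem checkA : ∀ n < 261, okA n := by decide +kernel

theorem checkYX : ∀ n < 261, okY n ∨ okX n := by decide +kernel

theorem checkC : ∀ n < 261, (fT n = fAT n ∧ fAV n = 0) ∨ okC n := by decide +kernel

def key (n : ℕ) : ℕ := (fT n * 32 + fAT n) * 128 + fAV n

theorem checkKey : ∀ n < 260, key n < key (n + 1) := by decide +kernel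

def okI (j s t : ℕ) : Prop :=
  aI (25 * j + 5 * s + t) < 261 ∧ fT (aI (25 * j + 5 * s + t)) = bT (5 * j + s) ∧
  fAT (aI (25 * j + 5 * s + t)) = bT (5 * j + t) ∧
  (bV (5 * j + s) + fAV (aI (25 * j + 5 * s + t))) % 101 = bV (5 * j + t) % 101

instance (j s t : ℕ) : Decidable (okI j s t) := by unfold okI; infer_instance

theorem checkI : ∀ j < 13, ∀ s < 5, ∀ t < 5, s ≠ t → okI j s t := by decide +kernel

theorem checkCl : ∀ j < 13, ∀ s < 5, bT (5 * j + s) < 19 := by decide +kernel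

theorem checkB : ∀ j < 266, bT (5 * j) < 19 ∧ bT (5 * j + 1) < 19 := by decide +kernel

/-- The code of the ordered pair with labels `s`, `t` in block `j`. -/
def code (p : ℕ × ℕ × ℕ) : ℕ :=
  (bT (5 * p.1 + p.2.1) * 19 + bT (5 * p.1 + p.2.2)) * 101 +
    (bV (5 * p.1 + p.2.2) + (101 - bV (5 * p.1 + p.2.1))) % 101

/-- The ordered pairs in the blocks. -/
def pairs : List (ℕ × ℕ × ℕ) :=
  (List.range 266).flatMap fun j => (List.range 5).flatMap fun s =>
    ((List.range 5).filter fun t => decide (s ≠ t) && decide (bT (5 * j + s) < 19) &&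
      decide (bT (5 * j + t) < 19)).map fun t => (j, s, t)

/-- Check that the entries of a list are distinct, and not in the set coded by `m`. -/
def chk : List ℕ → ℕ → Bool
  | [], _ => true
  | k :: ks, m => !(Nat.testBit m k) && chk ks (m ||| (1 <<< k))

theorem chk_sound : ∀ (l : List ℕ) (m : ℕ), chk l m = true →
    l.Nodup ∧ ∀ k ∈ l, Nat.testBit m k = false := by
  intro l
  induction l with
  | nil =>
    intro m _
    exact ⟨List.nodup_nil, by simp⟩
  | cons k ks ih =>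
    intro m h
    simp only [chk, Bool.and_eq_true, Bool.not_eq_true'] at h
    obtain ⟨h1, h2⟩ := h
    obtain ⟨h3, h4⟩ := ih _ h2
    have h5 : ∀ k' ∈ ks, Nat.testBit m k' = false ∧ k' ≠ k := by
      intro k' hk'
      have h6 := h4 k' hk'
      rw [Nat.testBit_or, Bool.or_eq_false_iff] at h6
      refine ⟨h6.1, ?_⟩
      rintro rfl
      have h7 := h6.2
      rw [Nat.testBit_shiftLeft] at h7
      simp at h7
    refine ⟨?_, ?_⟩
    · rw [List.nodup_cons]
      exact ⟨fun hk => (h5 k hk).2 rfl, h3⟩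
    · intro k' hk'
      rcases List.mem_cons.mp hk' with rfl | hk'
      · exact h1
      · exact (h5 k' hk').1

theorem checkPairs : chk (pairs.map code) 0 = true := by decide +kernel

theorem checkV : ∀ j < 266, ∀ s < 5, bV (5 * j + s) < 101 := by decide +kernel

end Pool.Agent.H.MP50b7e0
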