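import Mathlib

/-!
Affine line geometries over the field with five elements, switching on flats, and the finite
embedding of a finite partial linear space (with lines labelled by elements of `ZMod 5`)
into such a geometry (in the style of Treash's embedding of partial Steiner systems).
-/

set_option autoImplicit false

namespace Pool.Agent.H.MP50b7e0

instance fact5 : Fact (Nat.Prime 5) := ⟨by norm_num⟩

/-- An affine line structure over the field with five elements. -/
structure Geo (M : Type) where
  ln : M → M → ZMod 5 → M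
  ln0 : ∀ p q, ln p q 0 = p
  ln1 : ∀ p q, ln p q 1 = q
  lnln : ∀ p q s t r, ln (ln p q s) (ln p q t) r = ln p q (s + (t - s) * r)

namespace Geo

variable {M : Type} (G : Geo M)

theorem self (p : M) (t : ZMod 5) : G.ln p p t = p := by
  have h := G.lnln p p 0 0 t
  simp only [G.ln0] at h
  rw [h]
  simp [G.ln0]

theorem inj {p q : M} {s t : ZMod 5} (h : G.ln p q s = G.ln p q t) (hst : s ≠ t) : p = q := by
  have hne : t - s ≠ 0 := sub_ne_zero.mpr (Ne.symm hst)
  have key : ∀ u : ZMod 5, G.ln p q u = G.ln p q s := by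
    intro u
    have h1 := G.lnln p q s t ((u - s) / (t - s))
    have h2 : s + (t - s) * ((u - s) / (t - s)) = u := by
      field_simp
      ring
    rw [h2, ← h, G.self] at h1
    exact h1.symm
  have h0 := key 0
  have h1 := key 1
  rw [G.ln0] at h0
  rw [G.ln1] at h1
  exact h0.trans h1.symm

theorem inj' {p q : M} (hpq : p ≠ q) {s t : ZMod 5} (h : G.ln p q s = G.ln p q t) : s = t := by
  by_contra hst
  exact hpq (G.inj h hst)

end Geo

/-- Switching a geometry on a family of flats meeting pairwise in at most one point. -/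
theorem switch {M : Type} (G : Geo M) {I : Type} (F : I → Set M)
    (hF : ∀ i p q t, p ∈ F i → q ∈ F i → G.ln p q t ∈ F i)
    (hFF : ∀ i j p q, p ≠ q → p ∈ F i → q ∈ F i → p ∈ F j → q ∈ F j → i = j)
    (σ : I → Equiv.Perm M) (hσ : ∀ i p, p ∈ F i ↔ σ i p ∈ F i) :
    ∃ G' : Geo M, ∀ i p q t, p ∈ F i → q ∈ F i →
      G'.ln p q t = (σ i).symm (G.ln (σ i p) (σ i q) t) := by
  classical
  let ln' : M → M → ZMod 5 → M := fun p q t =>
    if h : p ≠ q ∧ ∃ i, p ∈ F i ∧ q ∈ F i then
      (σ h.2.choose).symm (G.ln (σ h.2.choose p) (σ h.2.choose q) t)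
    else G.ln p q t
  have hself : ∀ p t, ln' p p t = p := by
    intro p t
    simp only [ln', ne_eq, not_true_eq_false, false_and, dite_false]
    exact G.self p t
  have hA : ∀ i p q t, p ∈ F i → q ∈ F i →
      ln' p q t = (σ i).symm (G.ln (σ i p) (σ i q) t) := by
    intro i p q t hp hq
    by_cases hpq : p = q
    · subst hpq
      rw [hself, G.self]
      simp
    · have h : p ≠ q ∧ ∃ i, p ∈ F i ∧ q ∈ F i := ⟨hpq, i, hp, hq⟩
      have hi : h.2.choose = i := by
        have hs := h.2.choose_spec
        exact hFF _ _ p q hpq hs.1 hs.2 hp hq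
      simp only [ln']
      rw [dif_pos h, hi]
  have hB : ∀ p q t, (¬ ∃ i, p ∈ F i ∧ q ∈ F i) → ln' p q t = G.ln p q t := by
    intro p q t h
    simp only [ln']
    rw [dif_neg]
    rintro ⟨_, h2⟩
    exact h h2
  have hFsymm : ∀ i p, p ∈ F i → (σ i).symm p ∈ F i := by
    intro i p hp
    rw [hσ]
    simpa using hp
  refine ⟨⟨ln', ?_, ?_, ?_⟩, hA⟩
  · intro p q
    by_cases h : ∃ i, p ∈ F i ∧ q ∈ F i
    · obtain ⟨i, hp, hq⟩ := h
      rw [hA i p q 0 hp hq, G.ln0]
      simp
    · rw [hB p q 0 h, G.ln0]
  · intro p q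
    by_cases h : ∃ i, p ∈ F i ∧ q ∈ F i
    · obtain ⟨i, hp, hq⟩ := h
      rw [hA i p q 1 hp hq, G.ln1]
      simp
    · rw [hB p q 1 h, G.ln1]
  · intro p q s t r
    by_cases h : ∃ i, p ∈ F i ∧ q ∈ F i
    · obtain ⟨i, hp, hq⟩ := h
      have hσp := (hσ i p).mp hp
      have hσq := (hσ i q).mp hq
      rw [hA i p q s hp hq, hA i p q t hp hq, hA i p q _ hp hq]
      rw [hA i _ _ r (hFsymm i _ (hF i _ _ s hσp hσq)) (hFsymm i _ (hF i _ _ t hσp hσq))]
      simp only [Equiv.apply_symm_apply, G.lnln]
    · rw [hB p q s h, hB p q t h, hB p q _ h]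
      by_cases hst : s = t
      · subst hst
        rw [hself]
        simp
      · by_cases hpq : p = q
        · subst hpq
          simp only [G.self]
          rw [hself]
        · rw [hB, G.lnln]
          rintro ⟨j, hs, ht⟩
          apply h
          have hne : t - s ≠ 0 := sub_ne_zero.mpr (Ne.symm hst)
          have key : ∀ u : ZMod 5, G.ln p q u ∈ F j := by
            intro u
            have h1 := G.lnln p q s t ((u - s) / (t - s))
            have h2 : s + (t - s) * ((u - s) / (t - s)) = u := by
              field_simp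
              ring
            rw [h2] at h1
            rw [← h1]
            exact hF j _ _ _ hs ht
          have k0 := key 0
          have k1 := key 1
          rw [G.ln0] at k0
          rw [G.ln1] at k1
          exact ⟨j, k0, k1⟩

/-- A permutation of a finite set preserving `F` and carrying one injective family to another. -/
theorem exists_perm {M S : Type} [Finite M] (F : Set M) (α β : S → M)
    (hα : Function.Injective α) (hβ : Function.Injective β)
    (hαF : ∀ s, α s ∈ F) (hβF : ∀ s, β s ∈ F) :
    ∃ σ : Equiv.Perm M, (∀ p, p ∈ F ↔ σ p ∈ F) ∧ ∀ s, σ (α s) = β s := by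
  classical
  let α' : S → {p // p ∈ F} := fun s => ⟨α s, hαF s⟩
  let β' : S → {p // p ∈ F} := fun s => ⟨β s, hβF s⟩
  have hα' : Function.Injective α' := by
    intro a b h
    exact hα (congrArg Subtype.val h)
  have hβ' : Function.Injective β' := by
    intro a b h
    exact hβ (congrArg Subtype.val h)
  let e : {x // x ∈ Set.range α'} ≃ {x // x ∈ Set.range β'} :=
    (Equiv.ofInjective α' hα').symm.trans (Equiv.ofInjective β' hβ')
  let τ : Equiv.Perm {p // p ∈ F} := e.extendSubtype
  have hτ : ∀ s, τ (α' s) = β' s := by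
    intro s
    have h1 : τ (α' s) = e ⟨α' s, Set.mem_range_self s⟩ :=
      Equiv.extendSubtype_apply_of_mem e (α' s) (Set.mem_range_self s)
    rw [h1]
    have h2 : (Equiv.ofInjective α' hα').symm ⟨α' s, Set.mem_range_self s⟩ = s := by
      rw [Equiv.symm_apply_eq]
      rfl
    simp only [e, Equiv.trans_apply]
    rw [h2]
    rfl
  refine ⟨Equiv.Perm.ofSubtype τ, ?_, ?_⟩
  · intro p
    exact (Equiv.Perm.ofSubtype_apply_mem_iff_mem τ p).symm
  · intro s
    have h1 : Equiv.Perm.ofSubtype τ (α s) = τ ⟨α s, hαF s⟩ :=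
      Equiv.Perm.ofSubtype_apply_of_mem τ (hαF s)
    rw [h1]
    exact congrArg Subtype.val (hτ s)

/-- The standard affine geometry on functions with values in the field with five elements. -/
def stdGeo (V : Type) : Geo (V → ZMod 5) where
  ln p q t := fun v => p v + t * (q v - p v)
  ln0 p q := by
    funext v
    ring
  ln1 p q := by
    funext v
    ring
  lnln p q s t r := by
    funext v
    ring

/-- Finite embedding of a finite partial linear space with lines labelled in `ZMod 5`. -/
theorem embed {V I : Type} [Finite V] (Inc : I → ZMod 5 → V → Prop)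
    (h1 : ∀ i s v w, Inc i s v → Inc i s w → v = w)
    (h2 : ∀ i s t v, Inc i s v → Inc i t v → s = t)
    (h3 : ∀ i j s t s' t' u v, u ≠ v → Inc i s u → Inc i t v → Inc j s' u → Inc j t' v → i = j)
    (h4 : ∀ i, ∃ u v, Inc i 0 u ∧ Inc i 1 v) :
    ∃ (M : Type) (_ : Finite M) (e : V → M) (G : Geo M), Function.Injective e ∧
      ∀ i s t r u v w, Inc i s u → Inc i t v → Inc i (s + (t - s) * r) w →
        G.ln (e u) (e v) r = e w := by
  classical
  have : Fintype V := Fintype.ofFinite V
  let M : Type := V → ZMod 5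
  let G0 : Geo M := stdGeo V
  let e : V → M := fun v => Pi.single v 1
  have he : Function.Injective e := by
    intro a b h
    by_contra hab
    have h' := congrFun h a
    simp only [e, Pi.single_eq_same] at h'
    rw [Pi.single_eq_of_ne hab] at h'
    exact one_ne_zero h'
  let F : I → Set M := fun i => {p | (∀ v, (∀ s, ¬ Inc i s v) → p v = 0) ∧ ∑ v, p v = 1}
  have heF : ∀ i s v, Inc i s v → e v ∈ F i := by
    intro i s v hv
    refine ⟨?_, ?_⟩
    · intro w hw
      have : w ≠ v := by
        rintro rfl
        exact hw s hv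
      simp only [e]
      rw [Pi.single_eq_of_ne this]
    · simp only [e]
      rw [Finset.sum_pi_single']
      simp
  have hF : ∀ i p q t, p ∈ F i → q ∈ F i → G0.ln p q t ∈ F i := by
    intro i p q t hp hq
    refine ⟨?_, ?_⟩
    · intro v hv
      change p v + t * (q v - p v) = 0
      rw [hp.1 v hv, hq.1 v hv]
      ring
    · change ∑ v, (p v + t * (q v - p v)) = 1
      rw [Finset.sum_add_distrib, ← Finset.mul_sum, Finset.sum_sub_distrib, hp.2, hq.2]
      ring
  have hFF : ∀ i j p q, p ≠ q → p ∈ F i → q ∈ F i → p ∈ F j → q ∈ F j → i = j := by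
    intro i j p q hpq hpi hqi hpj hqj
    by_contra hij
    apply hpq
    funext v
    by_cases hv : (∃ s, Inc i s v) ∧ (∃ s, Inc j s v)
    · have hz : ∀ r : M, r ∈ F i → r ∈ F j → r v = 1 := by
        intro r hri hrj
        have hs := hri.2
        rw [Finset.sum_eq_single v] at hs
        · exact hs
        · intro w _ hwv
          by_contra hne
          have hw1 : ∃ s, Inc i s w := by
            by_contra hcon
            push Not at hcon
            exact hne (hri.1 w hcon)
          have hw2 : ∃ s, Inc j s w := by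
            by_contra hcon
            push Not at hcon
            exact hne (hrj.1 w hcon)
          obtain ⟨s, hs1⟩ := hw1
          obtain ⟨s', hs2⟩ := hw2
          obtain ⟨⟨t, ht1⟩, ⟨t', ht2⟩⟩ := hv
          exact hij (h3 i j s t s' t' w v hwv hs1 ht1 hs2 ht2)
        · intro hcon
          exact absurd (Finset.mem_univ v) hcon
      rw [hz p hpi hpj, hz q hqi hqj]
    · rw [not_and_or] at hv
      rcases hv with hv | hv
      · push Not at hv
        rw [hpi.1 v hv, hqi.1 v hv]
      · push Not at hv
        rw [hpj.1 v hv, hqj.1 v hv]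
  have hσex : ∀ i, ∃ σ : Equiv.Perm M, (∀ p, p ∈ F i ↔ σ p ∈ F i) ∧
      ∃ u0 u1 : V, ∀ s v, Inc i s v → σ (e v) = G0.ln (e u0) (e u1) s := by
    intro i
    obtain ⟨u0, u1, hu0, hu1⟩ := h4 i
    have hne : u0 ≠ u1 := by
      rintro rfl
      exact zero_ne_one (h2 i 0 1 u0 hu0 hu1)
    have hene : e u0 ≠ e u1 := fun h => hne (he h)
    let S : Type := {v : V // ∃ s, Inc i s v}
    let lab : S → ZMod 5 := fun v => v.2.choose
    have hlab : ∀ v : S, Inc i (lab v) v.1 := fun v => v.2.choose_spec
    obtain ⟨σ, hσ1, hσ2⟩ := exists_perm (F i) (fun v : S => e v.1)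
      (fun v : S => G0.ln (e u0) (e u1) (lab v))
      (by
        intro a b h
        exact Subtype.ext (he h))
      (by
        intro a b h
        have hl : lab a = lab b := G0.inj' hene h
        apply Subtype.ext
        have ha := hlab a
        rw [hl] at ha
        exact h1 i _ _ _ ha (hlab b))
      (fun v => heF i _ _ (hlab v))
      (fun v => hF i _ _ _ (heF i _ _ hu0) (heF i _ _ hu1))
    refine ⟨σ, hσ1, u0, u1, ?_⟩
    intro s v hv
    have h := hσ2 ⟨v, s, hv⟩
    have hs : lab ⟨v, s, hv⟩ = s := h2 i _ _ v (hlab ⟨v, s, hv⟩) hv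
    simp only at h
    rw [h, hs]
  choose σ hσ1 hσ2 using hσex
  obtain ⟨G', hG'⟩ := switch G0 F hF hFF σ hσ1
  refine ⟨M, inferInstance, e, G', he, ?_⟩
  intro i s t r u v w hu hv hw
  obtain ⟨u0, u1, h⟩ := hσ2 i
  rw [hG' i _ _ r (heF i _ _ hu) (heF i _ _ hv), h s u hu, h t v hv, G0.lnln, ← h _ w hw]
  simp

end Pool.Agent.H.MP50b7e0
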