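import Pool.Agent.H.MP_50b7e0_al.Mod
import Pool.Agent.H.MP_50b7e0_al.Check

/-!
The finite magma satisfying law 677 and violating law 255.
-/

set_option autoImplicit false

namespace Pool.Agent.H.MP50b7e0

abbrev V : Type := Fin 19 × ZMod 101
abbrev J : Type := Fin 266 × ZMod 101

def Inc (i : J) (s : ZMod 5) (v : V) : Prop :=
  bT (5 * i.1.val + s.val) = v.1.val ∧ v.2 = i.2 + ((bV (5 * i.1.val + s.val) : ℕ) : ZMod 101)

def Cq (i : J) : Prop := i.1.val < 13

def Arr (u p q : V) : Prop := ∃ n, n < 261 ∧ fT n = u.1.val ∧ fAT n = p.1.val ∧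
  fXT n = q.1.val ∧ p.2 = u.2 + ((fAV n : ℕ) : ZMod 101) ∧ q.2 = u.2 + ((fXV n : ℕ) : ZMod 101)

theorem cast_eq {a b : ℕ} (h : a % 101 = b % 101) : ((a : ℕ) : ZMod 101) = ((b : ℕ) : ZMod 101) :=
  (ZMod.natCast_eq_natCast_iff' a b 101).mpr h

theorem val5 (s : ZMod 5) : s.val < 5 := ZMod.val_lt s

theorem cast5 {a : ℕ} (h : a < 5) : ((a : ℕ) : ZMod 5).val = a := ZMod.val_natCast_of_lt h

theorem h1 (i : J) (s : ZMod 5) (v w : V) (hv : Inc i s v) (hw : Inc i s w) : v = w := by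
  refine Prod.ext (Fin.ext ?_) ?_
  · exact hv.1.symm.trans hw.1
  · exact hv.2.trans hw.2.symm

theorem mem_pairs {j s t : ℕ} (hj : j < 266) (hs : s < 5) (ht : t < 5) (hst : s ≠ t)
    (h1 : bT (5 * j + s) < 19) (h2 : bT (5 * j + t) < 19) : (j, s, t) ∈ pairs := by
  unfold pairs
  rw [List.mem_flatMap]
  refine ⟨j, List.mem_range.mpr hj, ?_⟩
  rw [List.mem_flatMap]
  refine ⟨s, List.mem_range.mpr hs, ?_⟩
  rw [List.mem_map]
  refine ⟨t, ?_, rfl⟩
  rw [List.mem_filter]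
  refine ⟨List.mem_range.mpr ht, ?_⟩
  simp [hst, h1, h2]

theorem code_eq {i : J} {s t : ZMod 5} {u v : V} (hu : Inc i s u) (hv : Inc i t v) :
    code (i.1.val, s.val, t.val) =
      (u.1.val * 19 + v.1.val) * 101 + (v.2 - u.2 : ZMod 101).val := by
  have hb : bV (5 * i.1.val + s.val) < 101 := checkV _ i.1.2 _ (val5 s)
  have h : (v.2 - u.2 : ZMod 101) =
      ((bV (5 * i.1.val + t.val) + (101 - bV (5 * i.1.val + s.val)) : ℕ) : ZMod 101) := by
    rw [hu.2, hv.2]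
    push_cast [Nat.cast_sub hb.le]
    have h101 : (101 : ZMod 101) = 0 := by
      have := ZMod.natCast_self 101
      exact_mod_cast this
    rw [h101]
    ring
  rw [h, ZMod.val_natCast]
  unfold code
  simp only
  rw [hu.1, hv.1]

theorem code_inj {i j : J} {s t s' t' : ZMod 5} {u v u' v' : V} (hst : s ≠ t) (hst' : s' ≠ t')
    (hu : Inc i s u) (hv : Inc i t v) (hu' : Inc j s' u') (hv' : Inc j t' v')
    (h : code (i.1.val, s.val, t.val) = code (j.1.val, s'.val, t'.val)) :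
    i.1 = j.1 ∧ s = s' ∧ t = t' := by
  have hnd := (chk_sound _ _ checkPairs).1
  have hne : s.val ≠ t.val := fun h => hst (ZMod.val_injective 5 h)
  have hne' : s'.val ≠ t'.val := fun h => hst' (ZMod.val_injective 5 h)
  have m1 : (i.1.val, s.val, t.val) ∈ pairs := by
    refine mem_pairs i.1.2 (val5 s) (val5 t) hne ?_ ?_
    · rw [hu.1]
      exact u.1.2
    · rw [hv.1]
      exact v.1.2
  have m2 : (j.1.val, s'.val, t'.val) ∈ pairs := by
    refine mem_pairs j.1.2 (val5 s') (val5 t') hne' ?_ ?_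
    · rw [hu'.1]
      exact u'.1.2
    · rw [hv'.1]
      exact v'.1.2
  have he := List.inj_on_of_nodup_map hnd m1 m2 h
  simp only [Prod.mk.injEq] at he
  exact ⟨Fin.ext he.1, ZMod.val_injective 5 he.2.1, ZMod.val_injective 5 he.2.2⟩

theorem h2 (i : J) (s t : ZMod 5) (v : V) (hs : Inc i s v) (ht : Inc i t v) : s = t := by
  by_contra hst
  have h := code_inj hst (Ne.symm hst) hs ht ht hs (by rw [code_eq hs ht, code_eq ht hs])
  exact hst h.2.1

theorem h3 (i j : J) (s t s' t' : ZMod 5) (u v : V) (huv : u ≠ v) (h1' : Inc i s u)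
    (h2' : Inc i t v) (h3' : Inc j s' u) (h4' : Inc j t' v) : i = j := by
  have hst : s ≠ t := by
    rintro rfl
    exact huv (h1 i s u v h1' h2')
  have hst' : s' ≠ t' := by
    rintro rfl
    exact huv (h1 j s' u v h3' h4')
  obtain ⟨hij, hs, ht⟩ := code_inj hst hst' h1' h2' h3' h4' (by rw [code_eq h1' h2', code_eq h3' h4'])
  refine Prod.ext hij ?_
  have e1 := h1'.2
  have e2 := h3'.2
  rw [hij, hs] at e1
  rw [e1] at e2
  exact add_right_cancel e2

theorem h4 (i : J) : ∃ u v, Inc i 0 u ∧ Inc i 1 v := by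
  have hb := checkB i.1.val i.1.2
  refine ⟨(⟨bT (5 * i.1.val + (0 : ZMod 5).val), ?_⟩, i.2 + ((bV (5 * i.1.val + (0 : ZMod 5).val) : ℕ) : ZMod 101)),
    (⟨bT (5 * i.1.val + (1 : ZMod 5).val), ?_⟩, i.2 + ((bV (5 * i.1.val + (1 : ZMod 5).val) : ℕ) : ZMod 101)),
    ⟨rfl, rfl⟩, ⟨rfl, rfl⟩⟩
  · exact hb.1
  · exact hb.2

theorem key_lt {m n : ℕ} (hmn : m < n) (hn : n < 261) : key m < key n := by
  induction n with
  | zero => omega
  | succ n ih =>
    have h1 := checkKey n (by omega)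
    rcases Nat.lt_succ_iff_lt_or_eq.mp hmn with h | h
    · exact (ih h (by omega)).trans h1
    · subst h
      exact h1

theorem key_inj {m n : ℕ} (hm : m < 261) (hn : n < 261) (h : key m = key n) : m = n := by
  rcases lt_trichotomy m n with h' | h' | h'
  · exact absurd h (key_lt h' hn).ne
  · exact h'
  · exact absurd h (key_lt h' hm).ne'

theorem a1 (u v c d : V) (hc : Arr u v c) (hd : Arr u v d) : c = d := by
  obtain ⟨n, hn, n1, n2, n3, n4, n5⟩ := hc
  obtain ⟨m, hm, m1, m2, m3, m4, m5⟩ := hd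
  have e1 : ((fAV n : ℕ) : ZMod 101) = ((fAV m : ℕ) : ZMod 101) := by
    rw [n4] at m4
    exact add_left_cancel m4
  have e2 : fAV n = fAV m := by
    have h := (ZMod.natCast_eq_natCast_iff' _ _ 101).mp e1
    rwa [Nat.mod_eq_of_lt (checkA n hn).2.1, Nat.mod_eq_of_lt (checkA m hm).2.1] at h
  have e3 : n = m := by
    apply key_inj hn hm
    unfold key
    rw [n1, n2, e2, ← m1, ← m2]
  subst e3
  refine Prod.ext (Fin.ext ?_) ?_
  · exact n3.symm.trans m3
  · exact n5.trans m5.symm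

theorem a2 (u v c : V) (h : Arr u v c) (huv : u ≠ v) :
    ∃ i s t, Cq i ∧ Inc i s u ∧ Inc i t v := by
  obtain ⟨n, hn, n1, n2, n3, n4, n5⟩ := h
  rcases checkC n hn with ⟨e1, e2⟩ | ⟨c1, c2, c3, c4, c5, c6⟩
  · exfalso
    apply huv
    refine Prod.ext (Fin.ext ?_) ?_
    · rw [← n1, ← n2, e1]
    · rw [n4, e2]
      simp
  · have hC : fC n < 266 := by omega
    refine ⟨(⟨fC n, hC⟩, u.2 - ((bV (5 * fC n + fL0 n) : ℕ) : ZMod 101)),
      ((fL0 n : ℕ) : ZMod 5), ((fL1 n : ℕ) : ZMod 5), c1, ⟨?_, ?_⟩, ⟨?_, ?_⟩⟩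
    · simp only [cast5 c2]
      rw [c4, n1]
    · simp only [cast5 c2]
      ring
    · simp only [cast5 c3]
      rw [c5, n2]
    · simp only [cast5 c3]
      have h := cast_eq c6
      push_cast at h
      rw [n4, ← h]
      ring

theorem a3 (i : J) (s t : ZMod 5) (u v : V) (hC : Cq i) (hu : Inc i s u) (hv : Inc i t v)
    (huv : u ≠ v) : ∃ c, Arr u v c := by
  have hst : s.val ≠ t.val := by
    intro h
    have := ZMod.val_injective 5 h
    subst this
    exact huv (h1 i s u v hu hv)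
  obtain ⟨c1, c2, c3, c4⟩ := checkI i.1.val hC s.val (val5 s) t.val (val5 t) hst
  set n := aI (25 * i.1.val + 5 * s.val + t.val) with hn
  have hA := (checkA n c1).1.2.2
  refine ⟨(⟨fXT n, hA⟩, u.2 + ((fXV n : ℕ) : ZMod 101)), n, c1, ?_, ?_, rfl, ?_, rfl⟩
  · rw [c2, hu.1]
  · rw [c3, hv.1]
  · have h := cast_eq c4
    push_cast at h
    rw [hu.2, hv.2, ← h]
    ring

theorem a3' (i : J) (s : ZMod 5) (hC : Cq i) : ∃ v, Inc i s v :=
  ⟨(⟨bT (5 * i.1.val + s.val), checkCl _ hC _ (val5 s)⟩,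
    i.2 + ((bV (5 * i.1.val + s.val) : ℕ) : ZMod 101)), rfl, rfl⟩

theorem a4 (u v c : V) (h : Arr u v c) : ∃ a b, Arr u a v ∧ Arr c u b ∧
    (Arr v b a ∨ ∃ i s t, ¬ Cq i ∧ v ≠ b ∧ Inc i s v ∧ Inc i t b ∧
      Inc i (s + (t - s) * (-1)) a) := by
  obtain ⟨n, hn, n1, n2, n3, n4, n5⟩ := h
  obtain ⟨-, -, ⟨p1, p2, p3, p4⟩, ⟨m1, m2, m3, m4⟩⟩ := checkA n hn
  obtain ⟨⟨-, tp, -⟩, -, -⟩ := checkA (fPr n) p1
  obtain ⟨⟨-, -, tm⟩, -, -⟩ := checkA (fM n) m1
  have hc4 : ((fAV (fM n) : ℕ) : ZMod 101) = - ((fXV n : ℕ) : ZMod 101) := by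
    have h := cast_eq (b := 0) (m4.trans (by rfl))
    push_cast at h
    exact eq_neg_of_add_eq_zero_left h
  refine ⟨(⟨fAT (fPr n), tp⟩, u.2 + ((fAV (fPr n) : ℕ) : ZMod 101)),
    (⟨fXT (fM n), tm⟩, c.2 + ((fXV (fM n) : ℕ) : ZMod 101)), ?_, ?_, ?_⟩
  · refine ⟨fPr n, p1, p2.trans n1, rfl, p3.trans n2, rfl, ?_⟩
    rw [p4, n4]
  · refine ⟨fM n, m1, m2.trans n3, m3.trans n1, rfl, ?_, rfl⟩
    rw [hc4, n5]
    ring
  · rcases checkYX n hn with ⟨y1, y2, y3, y4, y5, y6⟩ | ⟨⟨x1, x2, x3, x4, x5, x6⟩, ⟨x7, x8, x9⟩, x10, x11, x12⟩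
    · left
      refine ⟨fJ n, y1, y2.trans n2, y3, y5, ?_, ?_⟩
      · have h := cast_eq y4
        push_cast at h
        simp only
        rw [n4, n5]
        linear_combination -h
      · have h := cast_eq y6
        push_cast at h
        simp only
        rw [n4]
        linear_combination -h
    · right
      have hs : (((fLx n : ℕ) : ZMod 5) + (((fLb n : ℕ) : ZMod 5) - ((fLx n : ℕ) : ZMod 5)) * (-1)) =
          ((fLa n : ℕ) : ZMod 5) := by
        have h := (ZMod.natCast_eq_natCast_iff' _ _ 5).mpr x12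
        push_cast at h
        linear_combination -h
      have hI : ∀ l, l < 5 → ∀ w : V, bT (5 * fJ n + l) = w.1.val →
          w.2 = (v.2 - ((bV (5 * fJ n + fLx n) : ℕ) : ZMod 101)) + ((bV (5 * fJ n + l) : ℕ) : ZMod 101) →
          Inc (⟨fJ n, x2⟩, v.2 - ((bV (5 * fJ n + fLx n) : ℕ) : ZMod 101)) ((l : ℕ) : ZMod 5) w := by
        intro l hl w hw1 hw2
        refine ⟨?_, ?_⟩
        · simp only [cast5 hl]
          exact hw1
        · simp only [cast5 hl]
          exact hw2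
      have hx := hI _ x3 v (x7.trans n2) (by ring)
      have hb := hI _ x4 (⟨fXT (fM n), tm⟩, c.2 + ((fXV (fM n) : ℕ) : ZMod 101)) x8 (by
        have h := cast_eq x10
        push_cast at h
        simp only
        rw [n4, n5]
        linear_combination -h)
      have ha := hI _ x5 (⟨fAT (fPr n), tp⟩, u.2 + ((fAV (fPr n) : ℕ) : ZMod 101)) x9 (by
        have h := cast_eq x11
        push_cast at h
        simp only
        rw [n4]
        linear_combination -h)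
      refine ⟨_, _, _, ?_, ?_, hx, hb, ?_⟩
      · simp only [Cq, not_lt]
        exact x1
      · intro heq
        rw [← heq] at hb
        have hl := h2 _ _ _ _ hx hb
        apply x6
        have := congrArg ZMod.val hl
        rwa [cast5 x3, cast5 x4] at this
      · rw [hs]
        exact ha

theorem main :
    ¬ (∀ (G : Type) [Finite G] (op : G → G → G),
      (∀ x y : G, x = op y (op x (op (op y x) y))) →
        ∀ x : G, x = op (op (op x x) x) x) := by
  refine magma_of_arrows Inc Cq Arr h1 h2 h3 h4 a1 a2 a3 a3' a4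
    ((0 : Fin 19), 0) ((1 : Fin 19), 0) ((2 : Fin 19), 0) ((17 : Fin 19), ((68 : ℕ) : ZMod 101))
    ⟨0, by norm_num, ?_, ?_, ?_, ?_, ?_⟩ ⟨13, by norm_num, ?_, ?_, ?_, ?_, ?_⟩
    ⟨25, by norm_num, ?_, ?_, ?_, ?_, ?_⟩ ?_
  all_goals decide +kernel

end Pool.Agent.H.MP50b7e0
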