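import Pool.Agent.H.MP_50b7e0_al.Embed

/-!
From a finite arrow structure whose laws are satisfied either by arrows or by labelled blocks
of a finite partial linear space, to a finite magma satisfying law 677 and violating law 255.
-/

set_option autoImplicit false

namespace Pool.Agent.H.MP50b7e0

theorem magma_of_arrows {V I : Type} [Finite V] (Inc : I → ZMod 5 → V → Prop) (C : I → Prop)
    (Arr : V → V → V → Prop)
    (h1 : ∀ i s v w, Inc i s v → Inc i s w → v = w)
    (h2 : ∀ i s t v, Inc i s v → Inc i t v → s = t)
    (h3 : ∀ i j s t s' t' u v, u ≠ v → Inc i s u → Inc i t v → Inc j s' u → Inc j t' v → i = j)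
    (h4 : ∀ i, ∃ u v, Inc i 0 u ∧ Inc i 1 v)
    (a1 : ∀ u v c d, Arr u v c → Arr u v d → c = d)
    (a2 : ∀ u v c, Arr u v c → u ≠ v → ∃ i s t, C i ∧ Inc i s u ∧ Inc i t v)
    (a3 : ∀ i s t u v, C i → Inc i s u → Inc i t v → u ≠ v → ∃ c, Arr u v c)
    (a3' : ∀ i s, C i → ∃ v, Inc i s v)
    (a4 : ∀ u v c, Arr u v c → ∃ a b, Arr u a v ∧ Arr c u b ∧
      (Arr v b a ∨ ∃ i s t, ¬ C i ∧ v ≠ b ∧ Inc i s v ∧ Inc i t b ∧ Inc i (s + (t - s) * (-1)) a))
    (x0 P Q z : V) (b1 : Arr x0 x0 P) (b2 : Arr P x0 Q) (b3 : Arr Q x0 z) (b4 : z ≠ x0) :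
    ¬ (∀ (G : Type) [Finite G] (op : G → G → G),
      (∀ x y : G, x = op y (op x (op (op y x) y))) →
        ∀ x : G, x = op (op (op x x) x) x) := by
  classical
  intro hall
  obtain ⟨M, hfin, e, G, he, hG⟩ := embed Inc h1 h2 h3 h4
  let op : M → M → M := fun p q =>
    if h : ∃ w u v, p = e u ∧ q = e v ∧ Arr u v w then e h.choose else G.ln p q (-1)
  have opY : ∀ u v w, Arr u v w → op (e u) (e v) = e w := by
    intro u v w huvw
    have h : ∃ w u' v', e u = e u' ∧ e v = e v' ∧ Arr u' v' w := ⟨w, u, v, rfl, rfl, huvw⟩
    simp only [op]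
    rw [dif_pos h]
    obtain ⟨u', v', hu, hv, hc⟩ := h.choose_spec
    have hu' := he hu
    have hv' := he hv
    subst hu' hv'
    rw [a1 _ _ _ _ hc huvw]
  have opX : ∀ p q, (¬ ∃ w u v, p = e u ∧ q = e v ∧ Arr u v w) → op p q = G.ln p q (-1) := by
    intro p q h
    simp only [op]
    rw [dif_neg h]
  have claw : ∀ x y : M, x = op y (op x (op (op y x) y)) := by
    intro x y
    by_cases hY : ∃ w u v, y = e u ∧ x = e v ∧ Arr u v w
    · obtain ⟨c, u, v, rfl, rfl, huv⟩ := hY
      obtain ⟨a, b, ha, hb, hor⟩ := a4 u v c huv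
      rw [opY u v c huv, opY c u b hb]
      have hvb : op (e v) (e b) = e a := by
        rcases hor with h | ⟨i, s, t, hC, hne, hv, hb', ha'⟩
        · exact opY v b a h
        · rw [opX]
          · exact hG i s t (-1) v b a hv hb' ha'
          · rintro ⟨w, v', b', hv1, hb1, hw⟩
            have hv2 := he hv1
            have hb2 := he hb1
            subst hv2 hb2
            obtain ⟨i', s', t', hC', hv3, hb3⟩ := a2 v b w hw hne
            have := h3 i i' s t s' t' v b hne hv hb' hv3 hb3
            subst this
            exact hC hC'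
      rw [hvb, opY u a v ha]
    · by_cases hyx : y = x
      · subst hyx
        have hyy : op y y = y := by
          rw [opX y y hY, G.self]
        rw [hyy, hyy, hyy, hyy]
      · -- no pair of distinct points on the line through `y` and `x` is an arrow pair
        have key : ∀ s t : ZMod 5, s ≠ t →
            ¬ ∃ w u v, G.ln y x s = e u ∧ G.ln y x t = e v ∧ Arr u v w := by
          rintro s t hst ⟨w, u, v, hu, hv, hw⟩
          have huv : u ≠ v := by
            rintro rfl
            exact hyx (G.inj (hu.trans hv.symm) hst)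
          obtain ⟨i, a, b, hC, hiu, hiv⟩ := a2 u v w hw huv
          have hts : t - s ≠ 0 := sub_ne_zero.mpr (Ne.symm hst)
          have hpt : ∀ r : ZMod 5, ∃ z, G.ln y x r = e z ∧
              Inc i (a + (b - a) * ((r - s) / (t - s))) z := by
            intro r
            obtain ⟨z, hz⟩ := a3' i (a + (b - a) * ((r - s) / (t - s))) hC
            refine ⟨z, ?_, hz⟩
            have h5 := hG i a b ((r - s) / (t - s)) u v z hiu hiv hz
            rw [← hu, ← hv, G.lnln] at h5
            have h6 : s + (t - s) * ((r - s) / (t - s)) = r := by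
              field_simp
              ring
            rw [h6] at h5
            exact h5
          obtain ⟨z0, hz0, hi0⟩ := hpt 0
          obtain ⟨z1, hz1, hi1⟩ := hpt 1
          rw [G.ln0] at hz0
          rw [G.ln1] at hz1
          have hz01 : z0 ≠ z1 := by
            rintro rfl
            exact hyx (hz0.trans hz1.symm)
          obtain ⟨c, hc⟩ := a3 i _ _ z0 z1 hC hi0 hi1 hz01
          exact hY ⟨c, z0, z1, hz0, hz1, hc⟩
        have e1 : op y x = G.ln y x (-1) := opX y x hY
        have e2 : op (op y x) y = G.ln y x (-2) := by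
          rw [e1]
          have h := opX (G.ln y x (-1)) y (by
            have hk := key (-1) 0 (by decide)
            rw [G.ln0] at hk
            exact hk)
          rw [h]
          have h7 := G.lnln y x (-1) 0 (-1)
          rw [G.ln0] at h7
          rw [h7]
          congr 1
        have e3 : op x (G.ln y x (-2)) = G.ln y x (-1) := by
          have h := opX x (G.ln y x (-2)) (by
            have hk := key 1 (-2) (by decide)
            rw [G.ln1] at hk
            exact hk)
          rw [h]
          have h7 := G.lnln y x 1 (-2) (-1)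
          rw [G.ln1] at h7
          rw [h7]
          congr 1
        have e4 : op y (G.ln y x (-1)) = x := by
          have h := opX y (G.ln y x (-1)) (by
            have hk := key 0 (-1) (by decide)
            rw [G.ln0] at hk
            exact hk)
          rw [h]
          have h7 := G.lnln y x 0 (-1) (-1)
          rw [G.ln0] at h7
          rw [h7]
          have h8 : (0 : ZMod 5) + (-1 - 0) * (-1) = 1 := by decide
          rw [h8, G.ln1]
        rw [e2, e3, e4]
  have hfinal := hall M op claw (e x0)
  rw [opY x0 x0 P b1, opY P x0 Q b2, opY Q x0 z b3] at hfinal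
  exact b4 (he hfinal).symm

end Pool.Agent.H.MP50b7e0
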